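import Pool.Agent.W345.VO.Stm

/-!
Project VO: translation covariance of the vertex operators.
-/

namespace Pool.Agent.W392.VO.Te

open MvPolynomial Pool.Agent.W345.VO

theorem hom_add {d : ℤ} {p q : PP} (hp : hom d p) (hq : hom d q) : hom d (p + q) := by
  rcases hp with ⟨h, hp⟩ | rfl
  · rcases hq with ⟨_, hq⟩ | rfl
    · exact Or.inl ⟨h, hp.add hq⟩
    · rw [add_zero]
      exact Or.inl ⟨h, hp⟩
  · rw [zero_add]
    exact hq

theorem hom_smul {d : ℤ} {p : PP} (c : ℂ) (hp : hom d p) : hom d (c • p) := by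
  rcases hp with ⟨h, hp⟩ | rfl
  · refine Or.inl ⟨h, ?_⟩
    rw [MvPolynomial.smul_eq_C_mul]
    have := (MvPolynomial.isWeightedHomogeneous_C (fun i : ℕ => i + 1) c).mul hp
    rwa [zero_add] at this
  · exact Or.inr (smul_zero c)

theorem homV_add {k d : ℤ} {v w : VV} (hv : HomV k d v) (hw : HomV k d w) : HomV k d (v + w) := by
  obtain ⟨p, rfl, hp⟩ := hv
  obtain ⟨q, rfl, hq⟩ := hw
  exact ⟨p + q, (Finsupp.single_add k p q).symm, hom_add hp hq⟩

theorem homV_smul {k d : ℤ} {v : VV} (c : ℂ) (hv : HomV k d v) : HomV k d (c • v) := by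
  obtain ⟨p, rfl, hp⟩ := hv
  exact ⟨c • p, Finsupp.smul_single c k p, hom_smul c hp⟩

theorem homV_sub {k d : ℤ} {v w : VV} (hv : HomV k d v) (hw : HomV k d w) : HomV k d (v - w) := by
  have h1 := homV_smul (-1) hw
  rw [neg_one_smul] at h1
  rw [sub_eq_add_neg]
  exact homV_add hv h1

/-- the defect -/
noncomputable def D (ε m n : ℤ) : Module.End ℂ VV :=
  TT * EE ε (m + n) - EE ε (m + n) * TT + ((m + n : ℤ) : ℂ) • EE ε (m + n - 1)

theorem D_apply (ε m n : ℤ) (v : VV) : D ε m n v =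
    TT (EE ε (m + n) v) - EE ε (m + n) (TT v) + ((m + n : ℤ) : ℂ) • EE ε (m + n - 1) v := rfl

theorem te : S_HH → S_HE → S_BAS → S_TH → S_HOM → S_IND → S_TE := by
  intro _ hHE hBAS hTH hHOM hIND ε hε n v
  have hE : ∀ (l n : ℤ) (w : VV),
      hOp l (EE ε n w) = EE ε n (hOp l w) + (2 * (ε : ℂ)) • EE ε (l + n) w := by
    intro l n w
    rw [← hHE ε hε l n w]
    abel
  have hT : ∀ (l : ℤ) (w : VV), hOp l (TT w) = TT (hOp l w) + (l : ℂ) • hOp (l - 1) w := by
    intro l w
    have h1 := hTH l w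
    have h2 : hOp l (TT w) = TT (hOp l w) - (TT (hOp l w) - hOp l (TT w)) := by abel
    rw [h2, h1, neg_smul]
    abel
  have key := hIND ε (fun k => -2 * ε * k) (2 * (ε : ℂ)) 0 (D ε) ?_ ?_ ?_ 0 n v
  · rw [D_apply, zero_add] at key
    rw [neg_smul]
    exact eq_neg_of_add_eq_zero_left key
  · intro l m n v
    rw [zero_smul, add_zero, D_apply, D_apply, D_apply]
    simp only [map_add, map_sub, map_smul]
    rw [hT l (EE ε (m + n) v), hE l (m + n) v, hE l (m + n) (TT v), hE l (m + n - 1) v, hT l v,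
      hE (l - 1) (m + n) v]
    have e1 : l + (m + n) = m + l + n := by ring
    have e2 : l - 1 + (m + n) = m + l + n - 1 := by ring
    have e3 : l + (m + n - 1) = m + l + n - 1 := by ring
    rw [e1, e2, e3]
    simp only [map_add, map_smul, smul_add, smul_sub, smul_smul]
    push_cast
    module
  · intro m n k
    rw [D_apply]
    have h0 := hHOM.1 k
    have h1 := hHOM.2.2.2 _ _ _ (hHOM.2.2.1 ε k 0 (m + n) _ h0)
    have h2 := hHOM.2.2.1 ε k (0 + 1) (m + n) _ (hHOM.2.2.2 _ _ _ h0)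
    have h3 := hHOM.2.2.1 ε k 0 (m + n - 1) _ h0
    have e1 : (0 : ℤ) - (m + n) - 1 - 2 * ε * k + 1 = -2 * ε * k - m - n := by ring
    have e2 : (0 : ℤ) + 1 - (m + n) - 1 - 2 * ε * k = -2 * ε * k - m - n := by ring
    have e3 : (0 : ℤ) - (m + n - 1) - 1 - 2 * ε * k = -2 * ε * k - m - n := by ring
    rw [e1] at h1
    rw [e2] at h2
    rw [e3] at h3
    exact homV_add (homV_sub h1 h2) (homV_smul _ h3)
  · intro m n k hmn
    have hmn' : m + n = -2 * ε * k := hmn
    rw [D_apply]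
    have h1 : EE ε (m + n) (ee k) = 0 := by
      rw [hBAS.1, hmn']
      have : -(-2 * ε * k) - 1 - 2 * ε * k = -1 := by ring
      rw [this]
      unfold sz
      simp
    have h2 : TT (ee k) = (k : ℂ) • hOp (-1) (ee k) := by
      rw [hBAS.2.1]
      have h3 : hOp (-1) (ee k) = Finsupp.single k (X 0) := by
        have := hOp_neg 0 k 1
        simp only [Nat.cast_zero, neg_zero, zero_sub, mul_one] at this
        exact this
      rw [h3, Finsupp.smul_single]
    have h3 := hE (-1) (m + n) (ee k)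
    rw [h1, map_zero] at h3
    have h4 : EE ε (m + n) (hOp (-1) (ee k)) = -((2 * (ε : ℂ)) • EE ε (m + n - 1) (ee k)) := by
      have e1 : (-1 : ℤ) + (m + n) = m + n - 1 := by ring
      rw [e1] at h3
      exact eq_neg_of_add_eq_zero_left h3.symm
    rw [h1, map_zero, h2, map_smul, h4, hmn']
    push_cast
    module

end Pool.Agent.W392.VO.Te
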